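import Pool.Agent.helper60.DB.SpecF

/-!
# MP_fb2c2a_nt: row bf:BH
-/

set_option autoImplicit false

namespace Pool.Agent.helper60.DB

open Polynomial Finset Pool.Agent.helper60.DK

theorem BH_ndvd {p : ℕ} (hp : p.Prime) (h5 : 5 ≤ p) : ¬ (p : ℤ) ∣ 6 := by
  intro h
  have h1 : p ∣ 6 := by exact_mod_cast h
  have h2 : p ∣ 2 * 3 := h1
  rcases (Nat.Prime.dvd_mul hp).1 h2 with h3 | h3
  · have := Nat.le_of_dvd (by norm_num) h3; omega
  · have := Nat.le_of_dvd (by norm_num) h3; omega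

theorem BH_ndvd' {p : ℕ} (hp : p.Prime) (h5 : 5 ≤ p) (j : ℕ) : ¬ (p : ℤ) ∣ 6 ^ j * 4 := by
  intro h
  have hpr : Prime (p : ℤ) := Nat.prime_iff_prime_int.1 hp
  rcases hpr.dvd_or_dvd h with h1 | h1
  · exact BH_ndvd hp h5 (hpr.dvd_of_dvd_pow h1)
  · have h2 : p ∣ 4 := by exact_mod_cast h1
    have h3 : p ∣ 2 * 2 := h2
    rcases (Nat.Prime.dvd_mul hp).1 h3 with h3 | h3
    · have := Nat.le_of_dvd (by norm_num) h3; omega
    · have := Nat.le_of_dvd (by norm_num) h3; omega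

theorem BH (h1 : IZ_stmt) (h2 : PC_stmt) (h3 : BE_stmt) : BH_stmt := by
  intro R k _ _ _ _ p m _ _ q hL h5 hpm s t a b y w hs ht hsq hy hw hp hq
  have hpp : p.Prime := Fact.out
  obtain ⟨hIZ, -⟩ := h1 R k p q hL
  obtain ⟨e1, -, -, -, e5, -, -⟩ := h3 R s t y hs ht hy
  have h144 : q (12 * (1 + s)) ≠ 0 := by
    intro h0
    have h4 : q ((((6 : ℤ) ^ 2 * 4 : ℤ)) : R) = 0 := by
      have h6 : ((((6 : ℤ) ^ 2 * 4 : ℤ)) : R) = 12 * (1 + s) * (-(12 * (1 - s))) := by
        push_cast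
        linear_combination -144 * hs
      rw [h6, map_mul, h0, zero_mul]
    exact BH_ndvd' hpp h5 2 ((hIZ _).1 h4)
  have h576 : q ((12 * (1 + s)) ^ 2 - 4 * (((6 : ℤ)) : R)) ≠ 0 := by
    intro h0
    have h4 : q ((((6 : ℤ) ^ 2 * 4 : ℤ)) : R) = 0 := by
      have h6 : ((((6 : ℤ) ^ 2 * 4 : ℤ)) : R) * 4 =
          ((12 * (1 + s)) ^ 2 - 4 * (((6 : ℤ)) : R)) * ((12 * (1 - s)) ^ 2 - 4 * (((6 : ℤ)) : R)) := by
        push_cast
        linear_combination (-(20736 : R) * s ^ 2 + 6912) * hs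
      have h7 : q (((((6 : ℤ) ^ 2 * 4 : ℤ)) : R) * 4) = 0 := by rw [h6, map_mul, h0, zero_mul]
      rw [map_mul] at h7
      rcases mul_eq_zero.1 h7 with h8 | h8
      · exact h8
      · exfalso
        have h9 : q (((4 : ℤ)) : R) = 0 := by
          push_cast
          exact h8
        have h10 := (hIZ _).1 h9
        exact BH_ndvd' hpp h5 0 (by simpa using h10)
    exact BH_ndvd' hpp h5 2 ((hIZ _).1 h4)
  have hodd : Odd a := by
    have h4 : Odd (p : ℤ) := by
      rw [hpm]; exact ⟨m, by push_cast; ring⟩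
    rw [hp] at h4
    by_contra h6
    rw [Int.not_odd_iff_even] at h6
    have h7 : Even (a ^ 2 + 6 * b ^ 2) := by
      refine Even.add (h6.pow_of_ne_zero two_ne_zero) ?_
      exact (by decide : Even (6 : ℤ)).mul_right _
    exact (Int.not_even_iff_odd.2 h4) h7
  have hfrob : q (12 * (1 + s)) ^ p = q (12 * (1 + s)) := by
    have h12 : q 12 ^ p = q 12 := by
      have h4 : q (12 : R) = (((12 : ℕ)) : k) := by
        rw [show (12 : R) = (((12 : ℕ)) : R) by norm_num, map_natCast]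
      rw [h4]
      have h6 := map_natCast (frobenius k p) 12
      rwa [frobenius_def] at h6
    rw [map_mul, map_add, map_one, mul_pow, add_pow_char, one_pow, h12, hsq]
  have key := h2 R k p m q hL h5 hpm (12 * (1 + s)) (s * t) 6 6 0 a b y w
    (by simpa using hy) hw (BH_ndvd hpp h5) h576 (by norm_num)
    (by push_cast; linear_combination t ^ 2 * hs + 2 * ht) (by simpa using e5) (by simpa using e1)
    (by push_cast; exact hp) (by simpa using hodd) hq hfrob h144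
  obtain ⟨z, hz⟩ := key
  refine ⟨z, ?_⟩
  rw [hz]
  push_cast
  rfl

end Pool.Agent.helper60.DB
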