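import Pool.Agent.helper60.DB.SpecF

/-!
# MP_fb2c2a_nt: row bf:BZ
-/

set_option autoImplicit false

namespace Pool.Agent.helper60.DB

open Polynomial Finset Pool.Agent.helper60.DK

theorem BZ_ndvd {p : ℕ} (h5 : 5 ≤ p) : ¬ (p : ℤ) ∣ 2 ∧ ¬ (p : ℤ) ∣ -3 := by
  constructor
  · intro h
    have := Int.le_of_dvd (by norm_num) h
    omega
  · intro h
    rw [Int.dvd_neg] at h
    have := Int.le_of_dvd (by norm_num) h
    omega

/-- from a congruence in `R` to one in the integers -/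
theorem BZ_back {R : Type} [CommRing R] {p : ℕ} [Fact p.Prime]
    (hIZ : ∀ n : ℤ, (p : R) ^ 2 ∣ (n : R) → (p : ℤ) ^ 2 ∣ n) {t : ℤ} {x : R} (hx : 2 * x = 1)
    (ht : (p : ℤ) ^ 2 ∣ 2 * t - 1) (F : ℤ[X]) (N : ℤ) (z : R)
    (h : aeval x F = (N : R) + (p : R) ^ 2 * z) : (p : ℤ) ^ 2 ∣ F.eval t - N := by
  apply hIZ
  obtain ⟨c, hc⟩ := ht
  have h1 : ((t : ℤ) : R) - x = (p : R) ^ 2 * (c * x) := by
    have h2 : (2 : R) * t - 1 = (p : R) ^ 2 * c := by exact_mod_cast congrArg (Int.cast : ℤ → R) hc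
    linear_combination x * h2 - (t : R) * hx
  have h3 := (F.map (Int.castRingHom R)).sub_dvd_eval_sub ((t : ℤ) : R) x
  have h4 : (F.map (Int.castRingHom R)).eval ((t : ℤ) : R) = ((F.eval t : ℤ) : R) := by
    rw [eval_intCast_map, eq_intCast, Int.cast_id]
  have h5 : (F.map (Int.castRingHom R)).eval x = aeval x F := by
    rw [eval_map, aeval_def, algebraMap_int_eq]
  rw [h4, h5, h, h1] at h3
  obtain ⟨d, hd⟩ := h3
  refine ⟨z + c * x * d, ?_⟩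
  push_cast
  linear_combination hd

theorem BZ (h1 : WT_stmt) (h2 : IZ_stmt) (h3 : FR_stmt) (h4 : L2_stmt) (h5 : BP_stmt)
    (h6 : BQ_stmt) : BZ_stmt := by
  intro p _ hp5 t a b ht
  have hpp : p.Prime := Fact.out
  obtain ⟨R, k, i1, i2, i3, i4, i5, q, hL, hsq⟩ := h1 p hp5
  obtain ⟨hIZ, hIZ2⟩ := h2 R k p q hL
  obtain ⟨n2, n3⟩ := BZ_ndvd hp5
  have q2 : q (((2 : ℤ)) : R) ≠ 0 := fun h => n2 ((hIZ 2).1 h)
  have q3 : q (((-3 : ℤ)) : R) ≠ 0 := fun h => n3 ((hIZ (-3)).1 h)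
  obtain ⟨s, hs⟩ := hsq _ q2
  obtain ⟨v, hv⟩ := hsq _ q3
  have hs' : s ^ 2 = 2 := by rw [hs]; norm_num
  have hv' : v ^ 2 = -3 := by rw [hv]; norm_num
  obtain ⟨x, hx⟩ := (hL.unit _ q2).exists_right_inv
  have hx' : 2 * x = 1 := by
    rw [← hx]; norm_num
  have hqs : (q s) ^ 2 = ((2 : ℤ) : k) := by
    rw [← map_pow, hs, map_intCast]
  have hfr := h3 k p hp5 2 (q s) hqs
  refine ⟨fun hp => ?_, fun hp => ?_⟩
  · obtain ⟨l2, -⟩ := (h4 p hp5 a b).1 hp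
    rw [l2] at hfr
    have hsp : q s ^ p = q s := by rw [hfr]; push_cast; ring
    obtain ⟨z, hz⟩ := h5 R k p q hL hp5 s v x a b hs' hv' hsp hx' hp
    refine BZ_back hIZ2 hx' ht (DA.St p) _ z ?_
    rw [hz]
    push_cast
    ring
  · obtain ⟨l2, -⟩ := (h4 p hp5 a b).2 hp
    rw [l2] at hfr
    have hsp : q s ^ p = -q s := by rw [hfr]; push_cast; ring
    obtain ⟨z, hz⟩ := h6 R k p q hL hp5 s v x a b hs' hv' hsp hx' hp
    refine BZ_back hIZ2 hx' ht (DA.St p) _ z ?_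
    rw [hz]
    push_cast
    ring

end Pool.Agent.helper60.DB
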